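import Pool.Agent.L5helper91.CH.Full

/-!
# Open covers by pieces of `K \ dev⁻¹(H)`
-/

set_option autoImplicit false

open Set Filter Topology Metric

namespace Pool.Agent.L5helper91.CH

open Pool.Agent.W689.Ch Pool.Agent.TH845.Mk Pool.Agent.Y150.Ch
open Pool.Agent.W689.Mk (lin)

variable {X Γ E : Type} [TopologicalSpace X] [T2Space X] [Group Γ] [MulAction Γ X]
  [NormedAddCommGroup E] [NormedSpace ℝ E] [FiniteDimensional ℝ E]
  {dev : X → E} {hol : Γ →* (E ≃ᵃ[ℝ] E)} {H : AffineSubspace ℝ E} {x₀ : X}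

/-- the cover of the part over `H` -/
structure CovH (dev : X → E) (K : Subgroup Γ) (H : Set E) {A : Type} [MulAction K A]
    (U : A → Set X) (t : A → ℕ) : Prop where
  op : ∀ a, IsOpen (U a)
  cov : ∀ x, dev x ∈ H → ∃ a, x ∈ U a
  eq : ∀ (γ : K) a x, dev x ∈ H → x ∈ U a → γ.1 • x ∈ U (γ • a)
  rk : ∀ (γ : K) a, t (γ • a) = t a
  inj : ∀ a b x, dev x ∈ H → x ∈ U a → x ∈ U b → t a = t b → a = b

theorem vec_sub (D : AffMfd X Γ E dev hol) {K : Subgroup Γ} (hK : K.FiniteIndex)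
    (hx : dev x₀ ∈ H) (hinvK : ∀ γ ∈ K, ∀ q ∈ H, hol γ q ∈ H)
    (hfld : ¬ Fld dev (hol.comp K.subtype) H) {A : Type} [MulAction K A] {U : A → Set X}
    {t : A → ℕ} (hc : CovH dev K H U t) {F : A → Submodule ℝ E} {W : Submodule ℝ E}
    (hWV : W ≤ H.direction) (hW : ∀ γ ∈ K, ∀ v ∈ W, lin hol γ v ∈ W)
    (hWF : ∀ a, W ≤ F a ∧ F a ≤ H.direction)
    (hF : ∀ (γ : K) a, ∀ v ∈ F a, lin hol γ.1 v ∈ F (γ • a))
    (hs : ∀ (γ : K) a, γ • a = a → ∃ c : ℝ, 0 < c ∧ ∀ v ∈ F a, lin hol γ.1 v - c • v ∈ W) :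
    ∃ a x, dev x ∈ H ∧ x ∈ U a ∧
      Module.finrank ℝ (F a) ≤ Module.finrank ℝ W + (Low U t (t a) x).ncard := by
  have hinvH : ∀ (γ : K), ∀ q ∈ H, (hol.comp K.subtype) γ q ∈ H :=
    fun γ q hq => hinvK γ.1 γ.2 q hq
  let _ := subAct (restr D K hK) hinvH
  have D' := subMfd (restr D K hK) hx hinvH
  have hc' : Cov K (fun a => (Subtype.val ⁻¹' (U a) : Set {x : X // dev x ∈ H})) t :=
    ⟨fun a => (hc.op a).preimage continuous_subtype_val, fun x => hc.cov x.1 x.2,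
      fun γ a x hxa => hc.eq γ a x.1 x.2 hxa, hc.rk, fun a b x h1 h2 h3 =>
        hc.inj a b x.1 x.2 h1 h2 h3⟩
  obtain ⟨a, x, h1, h2⟩ := vec_full' D' (fun h => hfld (fld_of_sub (restr D K hK) hx hinvH h)) hc'
    (F := fun a => (F a).comap H.direction.subtype) (W := W.comap H.direction.subtype)
    (fun γ v hv => hW γ.1 γ.2 v.1 hv)
    (fun a v hv => (hWF a).1 hv)
    (fun γ a v hv => hF γ a v.1 hv)
    (fun γ a hγ => by
      obtain ⟨c, hc0, hcF⟩ := hs γ a hγ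
      exact ⟨c, hc0, fun v hv => hcF v.1 hv⟩)
  refine ⟨a, x.1, x.2, h1, ?_⟩
  have h3 : Module.finrank ℝ ((F a).comap H.direction.subtype) = Module.finrank ℝ (F a) :=
    (Submodule.comapSubtypeEquivOfLe (hWF a).2).finrank_eq
  have h4 : Module.finrank ℝ (W.comap H.direction.subtype) = Module.finrank ℝ W :=
    (Submodule.comapSubtypeEquivOfLe hWV).finrank_eq
  rw [h3, h4] at h2
  exact h2

theorem form_sub (D : AffMfd X Γ E dev hol) {K : Subgroup Γ} (hK : K.FiniteIndex)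
    (hx : dev x₀ ∈ H) (hinvK : ∀ γ ∈ K, ∀ q ∈ H, hol γ q ∈ H)
    (hfld : ¬ Fld dev (hol.comp K.subtype) H) {A : Type} [MulAction K A] {U : A → Set X}
    {t : A → ℕ} (hc : CovH dev K H U t) {N : A → Submodule ℝ E} {W : Submodule ℝ E}
    (hWV : W ≤ H.direction) (hW : ∀ γ ∈ K, ∀ v ∈ W, lin hol γ v ∈ W)
    (hNW : ∀ a, N a ≤ W)
    (hN : ∀ (γ : K) a, ∀ v ∈ N a, lin hol γ.1 v ∈ N (γ • a))
    (hs : ∀ (γ : K) a, γ • a = a → ∃ c : ℝ, 0 < c ∧ ∀ v ∈ W, lin hol γ.1 v - c • v ∈ N a) :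
    ∃ a x, dev x ∈ H ∧ x ∈ U a ∧
      Module.finrank ℝ W ≤ Module.finrank ℝ (N a) + (Low U t (t a) x).ncard := by
  have hinvH : ∀ (γ : K), ∀ q ∈ H, (hol.comp K.subtype) γ q ∈ H :=
    fun γ q hq => hinvK γ.1 γ.2 q hq
  let _ := subAct (restr D K hK) hinvH
  have D' := subMfd (restr D K hK) hx hinvH
  have hc' : Cov K (fun a => (Subtype.val ⁻¹' (U a) : Set {x : X // dev x ∈ H})) t :=
    ⟨fun a => (hc.op a).preimage continuous_subtype_val, fun x => hc.cov x.1 x.2,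
      fun γ a x hxa => hc.eq γ a x.1 x.2 hxa, hc.rk, fun a b x h1 h2 h3 =>
        hc.inj a b x.1 x.2 h1 h2 h3⟩
  obtain ⟨a, x, h1, h2⟩ := form_full' D' (fun h => hfld (fld_of_sub (restr D K hK) hx hinvH h)) hc'
    (N := fun a => (N a).comap H.direction.subtype) (W := W.comap H.direction.subtype)
    (fun γ v hv => hW γ.1 γ.2 v.1 hv)
    (fun a v hv => hNW a hv)
    (fun γ a v hv => hN γ a v.1 hv)
    (fun γ a hγ => by
      obtain ⟨c, hc0, hcF⟩ := hs γ a hγ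
      exact ⟨c, hc0, fun v hv => hcF v.1 hv⟩)
  refine ⟨a, x.1, x.2, h1, ?_⟩
  have h3 : Module.finrank ℝ ((N a).comap H.direction.subtype) = Module.finrank ℝ (N a) :=
    (Submodule.comapSubtypeEquivOfLe ((hNW a).trans hWV)).finrank_eq
  have h4 : Module.finrank ℝ (W.comap H.direction.subtype) = Module.finrank ℝ W :=
    (Submodule.comapSubtypeEquivOfLe hWV).finrank_eq
  rw [h3, h4] at h2
  exact h2

end Pool.Agent.L5helper91.CH
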