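import Pool.Agent.L5helper91.CH.Sec

/-!
# Vector fields and one-forms from open covers by pieces
-/

set_option autoImplicit false

open Set Filter Topology Metric

namespace Pool.Agent.L5helper91.CH

open Pool.Agent.W689.Ch Pool.Agent.TH845.Mk Pool.Agent.Y150.Ch
open Pool.Agent.W689.Mk (lin)

variable {X Γ E : Type} [TopologicalSpace X] [T2Space X] [Group Γ] [MulAction Γ X]
  [NormedAddCommGroup E] [NormedSpace ℝ E] [FiniteDimensional ℝ E]
  {dev : X → E} {hol : Γ →* (E ≃ᵃ[ℝ] E)}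

/-- the linear holonomy as a homomorphism -/
def LinHom (hol : Γ →* (E ≃ᵃ[ℝ] E)) : Γ →* Module.End ℝ E where
  toFun γ := ((hol γ).linear : E →ₗ[ℝ] E)
  map_one' := by
    rw [map_one]
    rfl
  map_mul' γ δ := by
    rw [map_mul]
    rfl

omit [FiniteDimensional ℝ E] in
theorem linHom_apply (γ : Γ) (v : E) : LinHom hol γ v = lin hol γ v := rfl

/-- A cover by open sets `U a`, permuted by the group, with ranks `t a`, such that different sets of
the same rank are disjoint. -/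
structure Cov (Γ : Type) [Group Γ] [MulAction Γ X] {A : Type} [MulAction Γ A] (U : A → Set X)
    (t : A → ℕ) : Prop where
  op : ∀ a, IsOpen (U a)
  cov : ∀ x, ∃ a, x ∈ U a
  eq : ∀ (γ : Γ) a x, x ∈ U a → γ • x ∈ U (γ • a)
  rk : ∀ (γ : Γ) a, t (γ • a) = t a
  inj : ∀ a b x, x ∈ U a → x ∈ U b → t a = t b → a = b

/-- vectors modulo an invariant subspace -/
theorem vec_full' (D : AffMfd X Γ E dev hol)
    (hno : ¬ ∃ Z : X → E, Continuous Z ∧ (∀ (γ : Γ) x, Z (γ • x) = lin hol γ (Z x)) ∧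
      ∀ x, Z x ≠ 0) {A : Type} [MulAction Γ A] {U : A → Set X} {t : A → ℕ} (hc : Cov Γ U t)
    {F : A → Submodule ℝ E} {W : Submodule ℝ E} (hW : ∀ (γ : Γ), ∀ v ∈ W, lin hol γ v ∈ W)
    (hWF : ∀ a, W ≤ F a) (hF : ∀ (γ : Γ) a, ∀ v ∈ F a, lin hol γ v ∈ F (γ • a))
    (hs : ∀ (γ : Γ) a, γ • a = a → ∃ c : ℝ, 0 < c ∧ ∀ v ∈ F a, lin hol γ v - c • v ∈ W) :
    ∃ a x, x ∈ U a ∧
      Module.finrank ℝ (F a) ≤ Module.finrank ℝ W + (Low U t (t a) x).ncard := by
  by_contra hcon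
  push Not at hcon
  -- coordinates of the quotient
  obtain ⟨π, hπk, hπs⟩ : ∃ π : E →ₗ[ℝ] (Fin (Module.finrank ℝ (E ⧸ W)) → ℝ),
      LinearMap.ker π = W ∧ Function.Surjective π := by
    let e : (E ⧸ W) ≃ₗ[ℝ] (Fin (Module.finrank ℝ (E ⧸ W)) → ℝ) :=
      LinearEquiv.ofFinrankEq _ _ (by simp)
    refine ⟨e.toLinearMap ∘ₗ W.mkQ, ?_, e.surjective.comp W.mkQ_surjective⟩
    rw [LinearMap.ker_comp, LinearEquiv.ker, Submodule.comap_bot, Submodule.ker_mkQ]
  obtain ⟨σ, hσ⟩ := π.exists_rightInverse_of_surjective (LinearMap.range_eq_top.2 hπs)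
  have hπσ : ∀ q, π (σ q) = q := fun q => LinearMap.congr_fun hσ q
  have hker : ∀ v, π v = 0 ↔ v ∈ W := fun v => by rw [← LinearMap.mem_ker, hπk]
  have hπL : ∀ (γ : Γ) v, π (lin hol γ (σ (π v))) = π (lin hol γ v) := by
    intro γ v
    have h1 : σ (π v) - v ∈ W := by
      rw [← hker, map_sub, hπσ, sub_self]
    have h2 := (hker _).2 (hW γ _ h1)
    rw [← linHom_apply, map_sub, map_sub, sub_eq_zero] at h2
    exact h2
  let L : Γ →* Module.End ℝ (Fin (Module.finrank ℝ (E ⧸ W)) → ℝ) :=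
    { toFun := fun γ => π ∘ₗ (LinHom hol γ) ∘ₗ σ
      map_one' := by
        ext q
        simp [hπσ]
      map_mul' := by
        intro γ δ
        refine LinearMap.ext fun q => ?_
        show π (LinHom hol (γ * δ) (σ q)) = π (lin hol γ (σ (π (lin hol δ (σ q)))))
        rw [hπL, map_mul]
        rfl }
  have hL : ∀ (γ : Γ) v, L γ (π v) = π (lin hol γ v) := fun γ v => hπL γ v
  have hdim : ∀ a, Module.finrank ℝ ((F a).map π) + Module.finrank ℝ W =
      Module.finrank ℝ (F a) := by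
    intro a
    have h1 := LinearMap.finrank_range_add_finrank_ker (π ∘ₗ (F a).subtype)
    have h2 : LinearMap.range (π ∘ₗ (F a).subtype) = (F a).map π := by
      rw [LinearMap.range_comp, Submodule.range_subtype]
    have h3 : LinearMap.ker (π ∘ₗ (F a).subtype) = W.comap (F a).subtype := by
      rw [LinearMap.ker_comp, hπk]
    have h4 : Module.finrank ℝ (W.comap (F a).subtype) = Module.finrank ℝ W :=
      (Submodule.comapSubtypeEquivOfLe (hWF a)).finrank_eq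
    rw [h2, h3, h4] at h1
    exact h1
  obtain ⟨Z, hZ1, hZ2, hZ3⟩ := sec_of_pieces D L (F := fun a => (F a).map π) hc.op hc.cov hc.eq
    hc.rk hc.inj
    (by
      rintro γ a _ ⟨v, hv, rfl⟩
      rw [hL]
      exact ⟨_, hF γ a v hv, rfl⟩)
    (by
      intro γ a hγ
      obtain ⟨c, hc0, hcF⟩ := hs γ a hγ
      refine ⟨c, hc0, ?_⟩
      rintro _ ⟨v, hv, rfl⟩
      rw [hL]
      have := (hker _).2 (hcF v hv)
      rw [map_sub, map_smul, sub_eq_zero] at this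
      exact this)
    (by
      intro a x hx
      have h1 := hcon a x hx
      have h2 := hdim a
      have h3 : (Low U t (t a) x).ncard < Module.finrank ℝ ((F a).map π) := by omega
      exact h3)
  obtain ⟨ρ, hρ⟩ := exists_wt D
  have hσc : Continuous σ := LinearMap.continuous_of_finiteDimensional σ
  obtain ⟨h1, h2⟩ := avgW D (LinHom hol) hρ (hσc.comp hZ1)
  refine hno ⟨_, h1, h2, fun x hx => hZ3 x ?_⟩
  obtain ⟨V, hV, S, hS⟩ := hρ.locfin x
  have hxV := mem_of_mem_nhds hV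
  have hsum : ∑ γ ∈ S, ρ (γ • x) = 1 := by
    rw [← hρ.sum x]
    exact (tsum_eq_sum fun γ hγ => hS γ hγ x hxV).symm
  have h3 : ∑' γ : Γ, ρ (γ • x) • LinHom hol γ⁻¹ ((σ ∘ Z) (γ • x)) =
      ∑ γ ∈ S, ρ (γ • x) • LinHom hol γ⁻¹ ((σ ∘ Z) (γ • x)) :=
    tsum_eq_sum fun γ hγ => by rw [hS γ hγ x hxV, zero_smul]
  have h4 := congrArg π (h3.symm.trans hx)
  rw [map_sum, map_zero] at h4
  have h5 : ∀ γ ∈ S, π (ρ (γ • x) • LinHom hol γ⁻¹ ((σ ∘ Z) (γ • x))) = ρ (γ • x) • Z x := by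
    intro γ _
    rw [map_smul]
    congr 1
    show π (lin hol γ⁻¹ (σ (Z (γ • x)))) = Z x
    rw [← hL, hπσ, hZ2, L_inv_apply]
  rw [Finset.sum_congr rfl h5, ← Finset.sum_smul, hsum, one_smul] at h4
  exact h4

/-- one-forms on an invariant subspace -/
theorem form_full' (D : AffMfd X Γ E dev hol)
    (hno : ¬ ∃ Z : X → E, Continuous Z ∧ (∀ (γ : Γ) x, Z (γ • x) = lin hol γ (Z x)) ∧
      ∀ x, Z x ≠ 0) {A : Type} [MulAction Γ A] {U : A → Set X} {t : A → ℕ} (hc : Cov Γ U t)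
    {N : A → Submodule ℝ E} {W : Submodule ℝ E} (hW : ∀ (γ : Γ), ∀ v ∈ W, lin hol γ v ∈ W)
    (hNW : ∀ a, N a ≤ W) (hN : ∀ (γ : Γ) a, ∀ v ∈ N a, lin hol γ v ∈ N (γ • a))
    (hs : ∀ (γ : Γ) a, γ • a = a → ∃ c : ℝ, 0 < c ∧ ∀ v ∈ W, lin hol γ v - c • v ∈ N a) :
    ∃ a x, x ∈ U a ∧
      Module.finrank ℝ W ≤ Module.finrank ℝ (N a) + (Low U t (t a) x).ncard := by
  by_contra hcon
  push Not at hcon
  -- the action on the forms on `W`
  let R : Γ → (W →ₗ[ℝ] W) := fun γ => (LinHom hol γ).restrict (hW γ)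
  have hR : ∀ (γ : Γ) (w : W), ((R γ w : W) : E) = lin hol γ w := fun γ w => rfl
  have hR1 : R 1 = LinearMap.id := by
    refine LinearMap.ext fun w => Subtype.ext ?_
    rw [hR, ← linHom_apply, map_one]
    rfl
  have hRm : ∀ γ δ : Γ, R (γ * δ) = (R γ) ∘ₗ (R δ) := by
    intro γ δ
    refine LinearMap.ext fun w => Subtype.ext ?_
    rw [hR, LinearMap.comp_apply, hR, hR, ← linHom_apply, map_mul]
    rfl
  let e : Module.Dual ℝ W ≃ₗ[ℝ] (Fin (Module.finrank ℝ (Module.Dual ℝ W)) → ℝ) :=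
    LinearEquiv.ofFinrankEq _ _ (by simp)
  let L : Γ →* Module.End ℝ (Fin (Module.finrank ℝ (Module.Dual ℝ W)) → ℝ) :=
    { toFun := fun γ => e.toLinearMap ∘ₗ (R γ⁻¹).dualMap ∘ₗ e.symm.toLinearMap
      map_one' := by
        refine LinearMap.ext fun q => ?_
        show e ((R 1⁻¹).dualMap (e.symm q)) = q
        rw [inv_one, hR1]
        exact e.apply_symm_apply q
      map_mul' := by
        intro γ δ
        refine LinearMap.ext fun q => ?_
        show e ((R (γ * δ)⁻¹).dualMap (e.symm q)) =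
          e ((R γ⁻¹).dualMap (e.symm (e ((R δ⁻¹).dualMap (e.symm q)))))
        rw [e.symm_apply_apply, mul_inv_rev, hRm]
        rfl }
  have hL : ∀ (γ : Γ) (φ : Module.Dual ℝ W), L γ (e φ) = e (φ ∘ₗ R γ⁻¹) := by
    intro γ φ
    show e ((R γ⁻¹).dualMap (e.symm (e φ))) = e (φ ∘ₗ R γ⁻¹)
    rw [e.symm_apply_apply]
    rfl
  -- the annihilators
  let N' : A → Submodule ℝ W := fun a => (N a).comap W.subtype
  let F : A → Submodule ℝ (Fin (Module.finrank ℝ (Module.Dual ℝ W)) → ℝ) := fun a =>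
    (N' a).dualAnnihilator.map e.toLinearMap
  have hdim : ∀ a, Module.finrank ℝ W = Module.finrank ℝ (N a) + Module.finrank ℝ (F a) := by
    intro a
    have h1 : Module.finrank ℝ (N' a) = Module.finrank ℝ (N a) :=
      (Submodule.comapSubtypeEquivOfLe (hNW a)).finrank_eq
    have h2 : Module.finrank ℝ (N' a) + Module.finrank ℝ (N' a).dualAnnihilator =
      Module.finrank ℝ W := Subspace.finrank_add_finrank_dualAnnihilator_eq (N' a)
    have h3 : Module.finrank ℝ (F a) = Module.finrank ℝ (N' a).dualAnnihilator :=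
      LinearEquiv.finrank_map_eq e _
    omega
  have hFL : ∀ (γ : Γ) a, ∀ φ ∈ F a, L γ φ ∈ F (γ • a) := by
    rintro γ a _ ⟨φ, hφ, rfl⟩
    refine ⟨φ ∘ₗ R γ⁻¹, ?_, (hL γ φ).symm⟩
    have hφ' : φ ∈ (N' a).dualAnnihilator := hφ
    rw [Submodule.mem_dualAnnihilator] at hφ'
    show φ ∘ₗ R γ⁻¹ ∈ (N' (γ • a)).dualAnnihilator
    rw [Submodule.mem_dualAnnihilator]
    intro w hw
    refine hφ' _ ?_
    show ((R γ⁻¹ w : W) : E) ∈ N a
    rw [hR]
    have := hN γ⁻¹ (γ • a) _ hw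
    rwa [inv_smul_smul] at this
  have hsL : ∀ (γ : Γ) a, γ • a = a → ∃ c : ℝ, 0 < c ∧ ∀ φ ∈ F a, L γ φ = c • φ := by
    intro γ a hγ
    have hγ' : γ⁻¹ • a = a := by
      rw [inv_smul_eq_iff]
      exact hγ.symm
    obtain ⟨c, hc0, hcF⟩ := hs γ⁻¹ a hγ'
    refine ⟨c, hc0, ?_⟩
    rintro _ ⟨φ, hφ, rfl⟩
    show L γ (e φ) = c • e φ
    rw [hL, ← map_smul]
    congr 1
    refine LinearMap.ext fun w => ?_
    have hφ' : φ ∈ (N' a).dualAnnihilator := hφ
    rw [Submodule.mem_dualAnnihilator] at hφ'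
    have h1 : φ (R γ⁻¹ w - c • w) = 0 := hφ' _ (by
      show lin hol γ⁻¹ w - c • (w : E) ∈ N a
      exact hcF w w.2)
    rw [map_sub, map_smul, sub_eq_zero] at h1
    exact h1
  have hdL : ∀ a x, x ∈ U a → (Low U t (t a) x).ncard < Module.finrank ℝ (F a) := by
    intro a x hx
    have h1 := hcon a x hx
    have h2 := hdim a
    omega
  obtain ⟨Z, hZ1, hZ2, hZ3⟩ := sec_of_pieces D L hc.op hc.cov hc.eq hc.rk hc.inj hFL hsL hdL
  obtain ⟨π, hπ⟩ := W.subtype.exists_leftInverse_of_injective W.ker_subtype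
  have hπw : ∀ w : W, π (w : E) = w := fun w => LinearMap.congr_fun hπ w
  let J : (Fin (Module.finrank ℝ (Module.Dual ℝ W)) → ℝ) →ₗ[ℝ] (E →L[ℝ] ℝ) :=
    (LinearMap.toContinuousLinearMap (𝕜 := ℝ) (E := E) (F' := ℝ)).toLinearMap ∘ₗ π.dualMap ∘ₗ
      e.symm.toLinearMap
  have hJ : ∀ q v, J q v = e.symm q (π v) := fun q v => rfl
  have hJc : Continuous J := LinearMap.continuous_of_finiteDimensional J
  obtain ⟨ρ, hρ⟩ := exists_wt D
  obtain ⟨h1, h2⟩ := Pool.Agent.R772.CC.avgc D hρ (W := fun x => J (Z x)) (hJc.comp hZ1)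
  refine hno (Pool.Agent.TH289.N.field_of_covector D h1 h2 fun x hx => hZ3 x ?_)
  obtain ⟨V, hV, S, hS⟩ := hρ.locfin x
  have hxV := mem_of_mem_nhds hV
  have hsum : ∑ γ ∈ S, ρ (γ • x) = 1 := by
    rw [← hρ.sum x]
    exact (tsum_eq_sum fun γ hγ => hS γ hγ x hxV).symm
  have h3 : ∑' γ : Γ, ρ (γ • x) • (J (Z (γ • x))).comp (Pool.Agent.TH289.N.cl hol γ) =
      ∑ γ ∈ S, ρ (γ • x) • (J (Z (γ • x))).comp (Pool.Agent.TH289.N.cl hol γ) :=
    tsum_eq_sum fun γ hγ => by rw [hS γ hγ x hxV, zero_smul]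
  have h6 : e.symm (Z x) = 0 := by
    refine LinearMap.ext fun w => ?_
    have h4 := congrArg (fun φ : E →L[ℝ] ℝ => φ (w : E)) (h3.symm.trans hx)
    simp only [sum_apply, zero_apply] at h4
    have h5 : ∀ γ ∈ S, (ρ (γ • x) • (J (Z (γ • x))).comp (Pool.Agent.TH289.N.cl hol γ)) (w : E) =
        ρ (γ • x) * e.symm (Z x) w := by
      intro γ _
      rw [smul_apply, smul_eq_mul]
      congr 1
      show e.symm (Z (γ • x)) (π (lin hol γ (w : E))) = e.symm (Z x) w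
      have e1 : Z (γ • x) = e ((e.symm (Z x)) ∘ₗ R γ⁻¹) := by
        rw [hZ2, ← hL, e.apply_symm_apply]
      rw [← hR, hπw, e1, e.symm_apply_apply, LinearMap.comp_apply]
      congr 1
      have := LinearMap.congr_fun (hRm γ⁻¹ γ) w
      rw [inv_mul_cancel, hR1] at this
      exact this.symm
    rw [Finset.sum_congr rfl h5, ← Finset.sum_mul, hsum, one_mul] at h4
    exact h4
  have h7 := congrArg e h6
  rwa [e.apply_symm_apply, map_zero] at h7

end Pool.Agent.L5helper91.CH
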