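import Mathlib

/-!
# Generic equivariant choices of vectors

A group `Γ` acts linearly (`L`) on the real vector space `W`, and on the sets `X` and `A`. The sets
`U a ⊆ X` and the subspaces `F a ⊆ W`, for `a ∈ A`, are permuted by `Γ`, and the stabilizer of `a`
acts on `F a` by positive scalars. There are ranks `t a ∈ ℕ`, invariant under `Γ`, which differ for
different `a`, `b` with `U a ∩ U b ≠ ∅`. If `dim F a` is larger than the number of the `b` of smaller
rank with `x ∈ U b`, for all `x ∈ U a`, then there are vectors `u a ∈ F a`, permuted by `Γ` up to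
positive factors, such that `u a` is not in the span of the `u b` of smaller rank with `x ∈ U b`.
-/

set_option autoImplicit false

open Set

namespace Pool.Agent.L5helper91.CH

variable {Γ A X W : Type} [Group Γ] [MulAction Γ A] [MulAction Γ X] [AddCommGroup W] [Module ℝ W]

/-- the members of smaller rank at the point `x` -/
def Low (U : A → Set X) (t : A → ℕ) (n : ℕ) (x : X) : Set A := {b | x ∈ U b ∧ t b < n}

theorem low_finite {U : A → Set X} {t : A → ℕ}
    (hinj : ∀ a b x, x ∈ U a → x ∈ U b → t a = t b → a = b) (n : ℕ) (x : X) :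
    (Low U t n x).Finite := by
  refine Set.Finite.of_finite_image (f := t) ((Set.finite_Iio n).subset ?_) ?_
  · rintro _ ⟨b, hb, rfl⟩
    exact hb.2
  · intro a ha b hb hab
    exact hinj a b x ha.1 hb.1 hab

/-- the partial choice for the ranks below `n` -/
structure Part (L : Γ →* Module.End ℝ W) (U : A → Set X) (t : A → ℕ) (F : A → Submodule ℝ W)
    (n : ℕ) (u : A → W) : Prop where
  mem : ∀ a, u a ∈ F a
  ray : ∀ (γ : Γ) a, ∃ c : ℝ, 0 < c ∧ L γ (u a) = c • u (γ • a)
  gen : ∀ a x, t a < n → x ∈ U a → u a ∉ Submodule.span ℝ (u '' Low U t (t a) x)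
  zero : ∀ a, n ≤ t a → u a = 0

theorem L_inv_apply (L : Γ →* Module.End ℝ W) (γ : Γ) (v : W) : L γ⁻¹ (L γ v) = v := by
  rw [← Module.End.mul_apply, ← map_mul, inv_mul_cancel, map_one, Module.End.one_apply]

theorem L_apply_inv (L : Γ →* Module.End ℝ W) (γ : Γ) (v : W) : L γ (L γ⁻¹ v) = v := by
  rw [← Module.End.mul_apply, ← map_mul, mul_inv_cancel, map_one, Module.End.one_apply]

theorem L_mul_apply (L : Γ →* Module.End ℝ W) (γ δ : Γ) (v : W) : L (γ * δ) v = L γ (L δ v) := by
  rw [map_mul, Module.End.mul_apply]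

/-- the spans of the lower vectors are permuted -/
theorem span_map {L : Γ →* Module.End ℝ W} {U : A → Set X} {t : A → ℕ} {u : A → W}
    (hray : ∀ (γ : Γ) a, ∃ c : ℝ, 0 < c ∧ L γ (u a) = c • u (γ • a))
    (hU : ∀ (γ : Γ) a x, x ∈ U a → γ • x ∈ U (γ • a)) (ht : ∀ (γ : Γ) a, t (γ • a) = t a)
    (n : ℕ) (γ : Γ) (x : X) {v : W} (hv : v ∈ Submodule.span ℝ (u '' Low U t n x)) :
    L γ v ∈ Submodule.span ℝ (u '' Low U t n (γ • x)) := by
  have h : Submodule.map (L γ) (Submodule.span ℝ (u '' Low U t n x)) ≤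
      Submodule.span ℝ (u '' Low U t n (γ • x)) := by
    rw [Submodule.map_span, Submodule.span_le]
    rintro _ ⟨_, ⟨b, hb, rfl⟩, rfl⟩
    obtain ⟨c, -, hc⟩ := hray γ b
    rw [SetLike.mem_coe, hc]
    refine Submodule.smul_mem _ c (Submodule.subset_span ⟨γ • b, ⟨hU γ b x hb.1, ?_⟩, rfl⟩)
    rw [ht]
    exact hb.2
  exact h ⟨v, hv, rfl⟩

/-- a vector of `F a` outside of all the spans of lower vectors -/
theorem avoid [FiniteDimensional ℝ W] {L : Γ →* Module.End ℝ W} {U : A → Set X} {t : A → ℕ}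
    {F : A → Submodule ℝ W} {u : A → W} {P : Set X}
    (hray : ∀ (γ : Γ) a, ∃ c : ℝ, 0 < c ∧ L γ (u a) = c • u (γ • a))
    (hPf : {a | (U a ∩ P).Nonempty}.Finite) (hP : ∀ x, ∃ γ : Γ, γ • x ∈ P)
    (hU : ∀ (γ : Γ) a x, x ∈ U a → γ • x ∈ U (γ • a)) (ht : ∀ (γ : Γ) a, t (γ • a) = t a)
    (hinj : ∀ a b x, x ∈ U a → x ∈ U b → t a = t b → a = b)
    (hs : ∀ (γ : Γ) a, γ • a = a → ∃ c : ℝ, 0 < c ∧ ∀ v ∈ F a, L γ v = c • v)
    (a : A) (hd : ∀ x, x ∈ U a → (Low U t (t a) x).ncard < Module.finrank ℝ (F a)) :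
    ∃ w ∈ F a, ∀ x, x ∈ U a → w ∉ Submodule.span ℝ (u '' Low U t (t a) x) := by
  classical
  let AP : Set A := {a | (U a ∩ P).Nonempty}
  let S : X → Submodule ℝ W := fun x => Submodule.span ℝ (u '' Low U t (t a) x)
  let T : Set (Submodule ℝ (F a)) := {T | ∃ x ∈ U a, T = (S x).comap (F a).subtype}
  let G : A × Set A → Submodule ℝ (F a) := fun bσ =>
    if h : ∃ g : Γ, g • bσ.1 = a then
      ((Submodule.span ℝ (u '' {c | c ∈ bσ.2 ∧ t c < t a})).map (L h.choose)).comap (F a).subtype
    else ⊥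
  have hsub : T ⊆ G '' (AP ×ˢ (𝒫 AP)) := by
    rintro _ ⟨x, hx, rfl⟩
    obtain ⟨γ, hγ⟩ := hP x
    let b : A := γ • a
    let σ : Set A := {c | γ • x ∈ U c}
    have hb : b ∈ AP := ⟨γ • x, hU γ a x hx, hγ⟩
    have hσ : σ ∈ 𝒫 AP := fun c hc => ⟨γ • x, hc, hγ⟩
    refine ⟨(b, σ), ⟨hb, hσ⟩, ?_⟩
    have hex : ∃ g : Γ, g • (b, σ).1 = a := ⟨γ⁻¹, inv_smul_smul γ a⟩
    have hGdef : G (b, σ) = ((Submodule.span ℝ (u '' {c | c ∈ σ ∧ t c < t a})).map
        (L hex.choose)).comap (F a).subtype := dif_pos hex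
    rw [hGdef]
    set g : Γ := hex.choose with hg
    have hgb : g • b = a := hex.choose_spec
    have hLow : {c | c ∈ σ ∧ t c < t a} = Low U t (t a) (γ • x) := rfl
    rw [hLow]
    have hst : (g * γ) • a = a := by
      rw [mul_smul]
      exact hgb
    obtain ⟨c, hc, hcF⟩ := hs _ _ hst
    have hcinv : ∀ v ∈ F a, L (g * γ)⁻¹ v = c⁻¹ • v := by
      intro v hv
      have h1 := hcF v hv
      have h2 : v = c • L (g * γ)⁻¹ v := by
        rw [← map_smul, ← h1, L_inv_apply]
      conv_rhs => rw [h2]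
      rw [smul_smul, inv_mul_cancel₀ hc.ne', one_smul]
    ext v
    rw [Submodule.mem_comap, Submodule.mem_comap]
    constructor
    · rintro ⟨y, hy, hyv⟩
      have h1 : L γ⁻¹ y ∈ S x := by
        have := span_map hray hU ht (t a) γ⁻¹ (γ • x) hy
        rwa [inv_smul_smul] at this
      have h2 : L (g * γ)⁻¹ (v : W) = L γ⁻¹ y := by
        have e : (v : W) = L g y := hyv.symm
        rw [e, mul_inv_rev, L_mul_apply, L_inv_apply]
      rw [hcinv _ v.2] at h2
      have h3 : (v : W) = c • L γ⁻¹ y := by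
        rw [← h2, smul_smul, mul_inv_cancel₀ hc.ne', one_smul]
      show (v : W) ∈ S x
      rw [h3]
      exact Submodule.smul_mem _ _ h1
    · intro hv
      have hv' : (v : W) ∈ S x := hv
      have h1 : L γ v ∈ Submodule.span ℝ (u '' Low U t (t a) (γ • x)) :=
        span_map hray hU ht (t a) γ x hv'
      have h2 : L g (L γ (v : W)) = c • (v : W) := by
        rw [← L_mul_apply]
        exact hcF _ v.2
      have h3 : (v : W) = L g (c⁻¹ • L γ (v : W)) := by
        rw [map_smul, h2, smul_smul, inv_mul_cancel₀ hc.ne', one_smul]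
      exact ⟨c⁻¹ • L γ (v : W), Submodule.smul_mem _ _ h1, h3.symm⟩
  have hTfin : T.Finite := ((hPf.prod hPf.powerset).image G).subset hsub
  have htop : (⊤ : Submodule ℝ (F a)) ∉ hTfin.toFinset := by
    rw [Set.Finite.mem_toFinset]
    rintro ⟨x, hx, hT⟩
    have hle : F a ≤ S x := by
      intro v hv
      have : (⟨v, hv⟩ : F a) ∈ (⊤ : Submodule ℝ (F a)) := Submodule.mem_top
      rw [hT] at this
      exact this
    have hfin := low_finite hinj (t a) x
    have h1 : Module.finrank ℝ (S x) ≤ (Low U t (t a) x).ncard := by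
      have hfi : (u '' Low U t (t a) x).Finite := hfin.image u
      have := hfi.fintype
      have h2 := finrank_span_le_card (R := ℝ) (u '' Low U t (t a) x)
      refine h2.trans ?_
      rw [← Set.ncard_eq_toFinset_card']
      exact Set.ncard_image_le hfin
    have h3 := Submodule.finrank_mono hle
    have h4 := hd x hx
    omega
  have hne := Subspace.biUnion_ne_univ_of_top_notMem htop
  obtain ⟨w, hw⟩ := (Set.ne_univ_iff_exists_notMem _).1 hne
  refine ⟨w.1, w.2, fun x hx hwx => hw ?_⟩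
  rw [Set.mem_iUnion₂]
  exact ⟨(S x).comap (F a).subtype, hTfin.mem_toFinset.2 ⟨x, hx, rfl⟩, hwx⟩

/-- **The generic choice.** -/
theorem exists_part [FiniteDimensional ℝ W] {L : Γ →* Module.End ℝ W} {U : A → Set X} {t : A → ℕ}
    {F : A → Submodule ℝ W} {P : Set X}
    (hPf : {a | (U a ∩ P).Nonempty}.Finite) (hP : ∀ x, ∃ γ : Γ, γ • x ∈ P)
    (hU : ∀ (γ : Γ) a x, x ∈ U a → γ • x ∈ U (γ • a)) (ht : ∀ (γ : Γ) a, t (γ • a) = t a)
    (hinj : ∀ a b x, x ∈ U a → x ∈ U b → t a = t b → a = b)
    (hF : ∀ (γ : Γ) a, ∀ v ∈ F a, L γ v ∈ F (γ • a))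
    (hs : ∀ (γ : Γ) a, γ • a = a → ∃ c : ℝ, 0 < c ∧ ∀ v ∈ F a, L γ v = c • v)
    (hd : ∀ a x, x ∈ U a → (Low U t (t a) x).ncard < Module.finrank ℝ (F a)) (n : ℕ) :
    ∃ u : A → W, Part L U t F n u := by
  classical
  induction n with
  | zero =>
    refine ⟨fun _ => 0, fun a => (F a).zero_mem, fun γ a => ⟨1, one_pos, ?_⟩,
      fun a x h => absurd h (Nat.not_lt_zero _), fun _ _ => rfl⟩
    rw [map_zero, smul_zero]
  | succ n ih =>
    obtain ⟨u, hu⟩ := ih
    have hav := fun a => avoid (F := F) hu.ray hPf hP hU ht hinj hs a (hd a)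
    choose w hwF hw using hav
    let q : A → MulAction.orbitRel.Quotient Γ A := Quotient.mk''
    let r : A → A := fun a => (q a).out
    have hr : ∀ a, ∃ g : Γ, g • r a = a := by
      intro a
      have h1 : (Quotient.mk'' (q a).out : MulAction.orbitRel.Quotient Γ A) = q a :=
        Quotient.out_eq' (q a)
      have h2 : (MulAction.orbitRel Γ A) a (q a).out := Quotient.exact' h1.symm
      obtain ⟨g, hg⟩ := MulAction.orbitRel_apply.1 h2
      exact ⟨g, hg⟩
    choose g hg using hr
    have hrγ : ∀ (γ : Γ) a, r (γ • a) = r a := by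
      intro γ a
      have h1 : q (γ • a) = q a := by
        refine Quotient.sound' ?_
        exact MulAction.orbitRel_apply.2 ⟨γ, rfl⟩
      show (q (γ • a)).out = (q a).out
      rw [h1]
    have htr : ∀ a, t (r a) = t a := by
      intro a
      conv_rhs => rw [← hg a, ht]
    let u' : A → W := fun a => if t a = n then L (g a) (w (r a)) else u a
    have hu'n : ∀ a, t a = n → u' a = L (g a) (w (r a)) := fun a h => if_pos h
    have hu'o : ∀ a, t a ≠ n → u' a = u a := fun a h => if_neg h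
    have himg : ∀ m, m ≤ n → ∀ x, u' '' Low U t m x = u '' Low U t m x := by
      intro m hm x
      refine Set.image_congr fun b hb => hu'o b ?_
      have := hb.2
      omega
    refine ⟨u', fun a => ?_, fun γ a => ?_, fun a x hta hx => ?_, fun a hta => ?_⟩
    · by_cases h : t a = n
      · rw [hu'n a h]
        have := hF (g a) (r a) _ (hwF (r a))
        rwa [hg] at this
      · rw [hu'o a h]
        exact hu.mem a
    · by_cases h : t a = n
      · have h' : t (γ • a) = n := by rw [ht]; exact h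
        rw [hu'n a h, hu'n _ h', hrγ]
        have hst : ((g (γ • a))⁻¹ * (γ * g a)) • r a = r a := by
          rw [mul_smul, mul_smul, hg, inv_smul_eq_iff, ← hrγ γ a, hg]
        obtain ⟨c, hc, hcF⟩ := hs _ _ hst
        refine ⟨c, hc, ?_⟩
        have h1 := hcF _ (hwF (r a))
        rw [← map_smul, ← h1, ← L_mul_apply, ← L_mul_apply, mul_inv_cancel_left]
      · have h' : t (γ • a) ≠ n := by rw [ht]; exact h
        rw [hu'o a h, hu'o _ h']
        exact hu.ray γ a
    · rw [himg (t a) (by omega) x]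
      by_cases h : t a = n
      · rw [hu'n a h]
        intro hmem
        have h1 := span_map hu.ray hU ht (t a) (g a)⁻¹ x hmem
        rw [L_inv_apply] at h1
        have h2 : (g a)⁻¹ • x ∈ U (r a) := by
          have h3 := hU (g a)⁻¹ a x hx
          have h4 : (g a)⁻¹ • a = r a := by
            rw [inv_smul_eq_iff]
            exact (hg a).symm
          rwa [h4] at h3
        have h5 := hw (r a) _ h2
        rw [htr] at h5
        exact h5 h1
      · rw [hu'o a h]
        exact hu.gen a x (by omega) hx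
    · have h : t a ≠ n := by omega
      rw [hu'o a h]
      exact hu.zero a (by omega)

/-- a linear form which is positive on the vectors of all members at a point -/
theorem exists_form {U : A → Set X} {t : A → ℕ} {u : A → W}
    (hinj : ∀ a b x, x ∈ U a → x ∈ U b → t a = t b → a = b) (x : X)
    (hgen : ∀ a, x ∈ U a → u a ∉ Submodule.span ℝ (u '' Low U t (t a) x)) (n : ℕ) :
    ∃ l : W →ₗ[ℝ] ℝ, ∀ a, x ∈ U a → t a < n → l (u a) = 1 := by
  induction n with
  | zero => exact ⟨0, fun a _ h => absurd h (Nat.not_lt_zero _)⟩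
  | succ n ih =>
    obtain ⟨l, hl⟩ := ih
    by_cases hex : ∃ a, x ∈ U a ∧ t a = n
    · obtain ⟨a, ha, hta⟩ := hex
      obtain ⟨f, hf1, hf2⟩ := Submodule.exists_le_ker_of_notMem (hgen a ha)
      refine ⟨l + ((1 - l (u a)) / f (u a)) • f, fun b hb htb => ?_⟩
      by_cases hbn : t b = n
      · have hba : b = a := hinj b a x hb ha (by rw [hbn, hta])
        subst hba
        rw [LinearMap.add_apply, LinearMap.smul_apply, smul_eq_mul, div_mul_cancel₀ _ hf1]
        ring
      · have h1 : f (u b) = 0 := by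
          refine hf2 (Submodule.subset_span ⟨b, ⟨hb, ?_⟩, rfl⟩)
          omega
        rw [LinearMap.add_apply, LinearMap.smul_apply, h1, smul_zero, add_zero]
        exact hl b hb (by omega)
    · push Not at hex
      refine ⟨l, fun b hb htb => hl b hb ?_⟩
      have := hex b hb
      omega

end Pool.Agent.L5helper91.CH
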