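import Pool.Agent.L5helper91.CH.Gen
import Pool.Agent.R772.CC5

/-!
# Equivariant sections of flat bundles over closed affine manifolds
-/

set_option autoImplicit false

open Set Filter Topology Metric

namespace Pool.Agent.L5helper91.CH

open Pool.Agent.W689.Ch Pool.Agent.TH845.Mk Pool.Agent.Y150.Ch
open Pool.Agent.W689.Mk (lin)

variable {X Γ E W : Type} [TopologicalSpace X] [T2Space X] [Group Γ] [MulAction Γ X]
  [NormedAddCommGroup E] [NormedSpace ℝ E] [FiniteDimensional ℝ E]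
  [NormedAddCommGroup W] [NormedSpace ℝ W] [FiniteDimensional ℝ W]
  {dev : X → E} {hol : Γ →* (E ≃ᵃ[ℝ] E)}

/-- averages over the group of vector valued functions are equivariant -/
theorem avgW (D : AffMfd X Γ E dev hol) (L : Γ →* Module.End ℝ W) {ρ : X → ℝ} (hρ : Wt Γ ρ)
    {f : X → W} (hf : Continuous f) :
    (Continuous fun x => ∑' γ : Γ, ρ (γ • x) • L γ⁻¹ (f (γ • x))) ∧
    ∀ (δ : Γ) x, (∑' γ : Γ, ρ (γ • δ • x) • L γ⁻¹ (f (γ • δ • x))) =
      L δ (∑' γ : Γ, ρ (γ • x) • L γ⁻¹ (f (γ • x))) := by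
  have hLc : ∀ γ : Γ, Continuous (L γ) := fun γ => LinearMap.continuous_of_finiteDimensional _
  constructor
  · refine cont_tsum (fun γ => ?_) fun x => ?_
    · exact (hρ.cont.comp (D.cont γ)).smul ((hLc _).comp (hf.comp (D.cont γ)))
    · obtain ⟨U, hU, F, hF⟩ := hρ.locfin x
      exact ⟨U, hU, F, fun γ hγ y hy => by rw [hF γ hγ y hy, zero_smul]⟩
  · intro δ x
    obtain ⟨U, hU, F, hF⟩ := hρ.locfin x
    have hs : Summable fun γ : Γ => ρ (γ • x) • L γ⁻¹ (f (γ • x)) :=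
      summable_of_ne_finset_zero (s := F) fun γ hγ => by
        rw [hF γ hγ _ (mem_of_mem_nhds hU), zero_smul]
    let A : W →L[ℝ] W := LinearMap.toContinuousLinearMap (L δ)
    have hA : ∀ v, L δ v = A v := fun _ => rfl
    rw [hA, A.map_tsum hs, ← Equiv.tsum_eq (Equiv.mulRight δ)
      (fun γ : Γ => A (ρ (γ • x) • L γ⁻¹ (f (γ • x))))]
    refine tsum_congr fun γ => ?_
    show _ = A (ρ ((γ * δ) • x) • L (γ * δ)⁻¹ (f ((γ * δ) • x)))
    rw [map_smul, ← hA, mul_inv_rev, L_mul_apply, L_apply_inv, mul_smul]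

/-- An equivariant map from the cover to the nonempty convex subsets of `W` with open lower sections
has an equivariant continuous selection. -/
theorem sec_of_cone (D : AffMfd X Γ E dev hol) (L : Γ →* Module.End ℝ W) {C : X → Set W}
    (hne : ∀ x, (C x).Nonempty) (hc : ∀ x, Convex ℝ (C x))
    (hi : ∀ (γ : Γ) x, ∀ v ∈ C x, L γ v ∈ C (γ • x))
    (ho : ∀ x, ∀ v ∈ C x, ∀ᶠ x' in 𝓝 x, v ∈ C x') :
    ∃ Z : X → W, Continuous Z ∧ (∀ (γ : Γ) x, Z (γ • x) = L γ (Z x)) ∧ ∀ x, Z x ∈ C x := by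
  have := locComp D
  obtain ⟨ρ, hρ⟩ := exists_wt D
  choose y hy using hne
  have hU : ∀ x, ∃ U : Set X, IsOpen U ∧ x ∈ U ∧ ∀ x' ∈ U, y x ∈ C x' := by
    intro x
    obtain ⟨U, hU1, hU2, hU3⟩ := eventually_nhds_iff.1 (ho x _ (hy x))
    exact ⟨U, hU2, hU3, hU1⟩
  choose U hUo hUx hUy using hU
  obtain ⟨t, ht⟩ := hρ.cpt.isCompact.elim_finite_subcover U hUo
    (fun x _ => mem_iUnion.2 ⟨x, hUx x⟩)
  let e := t.equivFin
  obtain ⟨f, hf1, hf2, hf3, -⟩ := exists_continuous_sum_one_of_isOpen_isCompact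
    (s := fun i : Fin t.card => U (e.symm i).1) (fun i => hUo _) hρ.cpt.isCompact (by
      intro x hx
      obtain ⟨z, hz⟩ := mem_iUnion.1 (ht hx)
      obtain ⟨hzt, hxz⟩ := mem_iUnion.1 hz
      refine mem_iUnion.2 ⟨e ⟨z, hzt⟩, ?_⟩
      rw [Equiv.symm_apply_apply]
      exact hxz)
  let Q : X → W := fun x => ∑ i, f i x • y (e.symm i).1
  have hQ : Continuous Q := continuous_finsetSum _ fun i _ =>
    (f i).continuous.smul continuous_const
  obtain ⟨h1, h2⟩ := avgW D L hρ hQ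
  refine ⟨_, h1, h2, fun x => ?_⟩
  have hQm : ∀ z, ρ z ≠ 0 → Q z ∈ C z := by
    intro z hz
    have hzt : z ∈ tsupport ρ := subset_tsupport _ hz
    have hs : ∑ i, f i z = 1 := by
      have := hf2 hzt
      simpa using this
    have e2 : Q z =
        ∑ i ∈ Finset.univ.filter (fun i => f i z ≠ 0), f i z • y (e.symm i).1 := by
      rw [Finset.sum_filter]
      refine Finset.sum_congr rfl fun i _ => ?_
      by_cases h : f i z = 0
      · rw [if_neg (not_not.2 h), h, zero_smul]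
      · rw [if_pos h]
    have e3 : ∑ i ∈ Finset.univ.filter (fun i => f i z ≠ 0), f i z = 1 := by
      rw [← hs, Finset.sum_filter]
      refine Finset.sum_congr rfl fun i _ => ?_
      by_cases h : f i z = 0
      · rw [if_neg (not_not.2 h), h]
      · rw [if_pos h]
    rw [e2]
    refine (hc z).sum_mem (fun i _ => (hf3 i z).1) e3 fun i hi => ?_
    have h3 : f i z ≠ 0 := (Finset.mem_filter.1 hi).2
    exact hUy _ z (hf1 i (subset_tsupport _ h3))
  obtain ⟨V, hV, F, hF⟩ := hρ.locfin x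
  have hxV := mem_of_mem_nhds hV
  have hs : ∑ γ ∈ F, ρ (γ • x) = 1 := by
    rw [← hρ.sum x]
    exact (tsum_eq_sum fun γ hγ => hF γ hγ x hxV).symm
  have h3 : ∑' γ : Γ, ρ (γ • x) • L γ⁻¹ (Q (γ • x)) =
      ∑ γ ∈ F, ρ (γ • x) • L γ⁻¹ (Q (γ • x)) :=
    tsum_eq_sum fun γ hγ => by rw [hF γ hγ x hxV, zero_smul]
  have h6 : ∑ γ ∈ F, ρ (γ • x) • L γ⁻¹ (Q (γ • x)) =
      ∑ γ ∈ F.filter (fun γ => ρ (γ • x) ≠ 0), ρ (γ • x) • L γ⁻¹ (Q (γ • x)) := by
    rw [Finset.sum_filter]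
    refine Finset.sum_congr rfl fun γ _ => ?_
    by_cases h : ρ (γ • x) = 0
    · rw [if_neg (not_not.2 h), h, zero_smul]
    · rw [if_pos h]
  have h7 : ∑ γ ∈ F.filter (fun γ => ρ (γ • x) ≠ 0), ρ (γ • x) = 1 := by
    rw [← hs, Finset.sum_filter]
    refine Finset.sum_congr rfl fun γ _ => ?_
    by_cases h : ρ (γ • x) = 0
    · rw [if_neg (not_not.2 h), h]
    · rw [if_pos h]
  show ∑' γ : Γ, ρ (γ • x) • L γ⁻¹ (Q (γ • x)) ∈ C x
  rw [h3, h6]
  refine (hc x).sum_mem (fun γ _ => hρ.nonneg _) h7 fun γ hγ => ?_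
  have h9 := hi γ⁻¹ _ _ (hQm (γ • x) (Finset.mem_filter.1 hγ).2)
  rwa [inv_smul_smul] at h9

/-- **Pieces.** A flat bundle over a closed affine manifold has a section without zeros if the
manifold has an open cover by pieces as described in `Gen`. -/
theorem sec_of_pieces (D : AffMfd X Γ E dev hol) (L : Γ →* Module.End ℝ W)
    {A : Type} [MulAction Γ A] {U : A → Set X} {t : A → ℕ} {F : A → Submodule ℝ W}
    (hUo : ∀ a, IsOpen (U a)) (hcov : ∀ x, ∃ a, x ∈ U a)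
    (hU : ∀ (γ : Γ) a x, x ∈ U a → γ • x ∈ U (γ • a)) (ht : ∀ (γ : Γ) a, t (γ • a) = t a)
    (hinj : ∀ a b x, x ∈ U a → x ∈ U b → t a = t b → a = b)
    (hF : ∀ (γ : Γ) a, ∀ v ∈ F a, L γ v ∈ F (γ • a))
    (hs : ∀ (γ : Γ) a, γ • a = a → ∃ c : ℝ, 0 < c ∧ ∀ v ∈ F a, L γ v = c • v)
    (hd : ∀ a x, x ∈ U a → (Low U t (t a) x).ncard < Module.finrank ℝ (F a)) :
    ∃ Z : X → W, Continuous Z ∧ (∀ (γ : Γ) x, Z (γ • x) = L γ (Z x)) ∧ ∀ x, Z x ≠ 0 := by
  classical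
  have := locComp D
  obtain ⟨P, hP, hPc⟩ := D.cc
  obtain ⟨K, hK, hPK⟩ := exists_compact_superset hP
  obtain ⟨A₀, hA₀⟩ := hP.elim_finite_subcover U hUo (fun x _ => mem_iUnion.2 (hcov x))
  let N : Set X := interior K
  let U' : A → Set X := fun b => {x | x ∈ U b ∧ ∃ γ : Γ, γ • b ∈ A₀ ∧ γ • x ∈ N}
  have hsub : ∀ b x, x ∈ U' b → x ∈ U b := fun b x h => h.1
  have hU'o : ∀ b, IsOpen (U' b) := by
    intro b
    have e : U' b = U b ∩ ⋃ γ : {γ : Γ // γ • b ∈ A₀}, (fun x => γ.1 • x) ⁻¹' N := by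
      ext x
      constructor
      · rintro ⟨h1, γ, h2, h3⟩
        exact ⟨h1, mem_iUnion.2 ⟨⟨γ, h2⟩, h3⟩⟩
      · rintro ⟨h1, h2⟩
        obtain ⟨γ, h3⟩ := mem_iUnion.1 h2
        exact ⟨h1, γ.1, γ.2, h3⟩
    rw [e]
    exact (hUo b).inter (isOpen_iUnion fun γ => isOpen_interior.preimage (D.cont γ.1))
  have hcov' : ∀ x, ∃ b, x ∈ U' b := by
    intro x
    obtain ⟨γ, k, hk, hγ⟩ := hPc x
    obtain ⟨a, ha⟩ := mem_iUnion.1 (hA₀ hk)
    obtain ⟨haA, hka⟩ := mem_iUnion.1 ha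
    refine ⟨γ • a, ?_, γ⁻¹, ?_, ?_⟩
    · rw [← hγ]
      exact hU γ a k hka
    · rw [inv_smul_smul]
      exact haA
    · rw [← hγ, inv_smul_smul]
      exact hPK hk
  have hU' : ∀ (γ : Γ) b x, x ∈ U' b → γ • x ∈ U' (γ • b) := by
    rintro γ b x ⟨h1, δ, h2, h3⟩
    refine ⟨hU γ b x h1, δ * γ⁻¹, ?_, ?_⟩
    · rw [mul_smul, inv_smul_smul]
      exact h2
    · rw [mul_smul, inv_smul_smul]
      exact h3
  have hinj' : ∀ a b x, x ∈ U' a → x ∈ U' b → t a = t b → a = b :=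
    fun a b x h1 h2 h3 => hinj a b x h1.1 h2.1 h3
  have hd' : ∀ a x, x ∈ U' a → (Low U' t (t a) x).ncard < Module.finrank ℝ (F a) := by
    intro a x hx
    refine lt_of_le_of_lt (Set.ncard_le_ncard ?_ (low_finite hinj (t a) x)) (hd a x hx.1)
    exact fun b hb => ⟨hb.1.1, hb.2⟩
  have hPf : {a | (U' a ∩ K).Nonempty}.Finite := by
    have hS := D.pd K hK
    refine ((hS.prod A₀.finite_toSet).image fun p : Γ × A => p.1⁻¹ • p.2).subset ?_
    rintro b ⟨x, ⟨-, γ, h2, h3⟩, hxK⟩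
    refine ⟨(γ, γ • b), ⟨⟨x, hxK, interior_subset h3⟩, h2⟩, ?_⟩
    exact inv_smul_smul γ b
  have hPK' : ∀ x, ∃ γ : Γ, γ • x ∈ K := by
    intro x
    obtain ⟨γ, k, hk, hγ⟩ := hPc x
    refine ⟨γ⁻¹, ?_⟩
    rw [← hγ, inv_smul_smul]
    exact interior_subset (hPK hk)
  -- a bound of the ranks
  obtain ⟨n, hn⟩ := (hPf.image t).bddAbove
  have hbd : ∀ a x, x ∈ U' a → t a < n + 1 := by
    intro a x hx
    obtain ⟨γ, hγ⟩ := hPK' x
    have h1 : t (γ • a) ≤ n := hn ⟨γ • a, ⟨γ • x, hU' γ a x hx, hγ⟩, rfl⟩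
    rw [ht] at h1
    omega
  obtain ⟨u, hu⟩ := exists_part hPf hPK' hU' ht hinj' hF hs hd' (n + 1)
  let S : X → Set W := fun x => {w | ∃ a, x ∈ U' a ∧ ∃ c : ℝ, 0 < c ∧ w = c • u a}
  obtain ⟨Z, hZ1, hZ2, hZ3⟩ := sec_of_cone D L (C := fun x => convexHull ℝ (S x))
    (fun x => by
      obtain ⟨a, ha⟩ := hcov' x
      exact ⟨u a, subset_convexHull ℝ _ ⟨a, ha, 1, one_pos, (one_smul ℝ _).symm⟩⟩)
    (fun x => convex_convexHull ℝ _)
    (fun γ x v hv => by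
      have h1 : L γ v ∈ (L γ) '' (convexHull ℝ (S x)) := ⟨v, hv, rfl⟩
      rw [(L γ).image_convexHull] at h1
      refine convexHull_mono ?_ h1
      rintro _ ⟨_, ⟨a, ha, c, hc, rfl⟩, rfl⟩
      obtain ⟨c', hc', h2⟩ := hu.ray γ a
      refine ⟨γ • a, hU' γ a x ha, c * c', mul_pos hc hc', ?_⟩
      rw [map_smul, h2, smul_smul])
    (fun x v hv => by
      have hv' : v ∈ convexHull ℝ (S x) := hv
      rw [convexHull_eq_union_convexHull_finite_subsets] at hv'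
      obtain ⟨s, hs1⟩ := mem_iUnion.1 hv'
      obtain ⟨hs2, hs3⟩ := mem_iUnion.1 hs1
      have h1 : ∀ᶠ x' in 𝓝 x, ∀ w ∈ s, w ∈ S x' := by
        rw [Filter.eventually_all_finset]
        intro w hw
        obtain ⟨a, ha, c, hc, rfl⟩ := hs2 hw
        filter_upwards [(hU'o a).mem_nhds ha] with x' hx'
        exact ⟨a, hx', c, hc, rfl⟩
      filter_upwards [h1] with x' hx'
      exact convexHull_mono (fun w hw => hx' w hw) hs3)
  refine ⟨Z, hZ1, hZ2, fun x hx => ?_⟩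
  obtain ⟨l, hl⟩ := exists_form hinj' x (fun a ha => hu.gen a x (hbd a x ha) ha) (n + 1)
  have h1 : convexHull ℝ (S x) ⊆ {w | 0 < l w} := by
    refine convexHull_min ?_ ?_
    · rintro _ ⟨a, ha, c, hc, rfl⟩
      show 0 < l (c • u a)
      rw [map_smul, hl a ha (hbd a x ha), smul_eq_mul, mul_one]
      exact hc
    · intro v hv w hw α β hα hβ hαβ
      have hv' : 0 < l v := hv
      have hw' : 0 < l w := hw
      show 0 < l (α • v + β • w)
      rw [map_add, map_smul, map_smul, smul_eq_mul, smul_eq_mul]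
      rcases hα.eq_or_lt with h | h
      · rw [← h] at hαβ ⊢
        have : β = 1 := by linarith
        rw [this]
        linarith
      · have := mul_pos h hv'
        have := mul_nonneg hβ hw'.le
        linarith
  have h2 := h1 (hZ3 x)
  rw [hx] at h2
  simp at h2

end Pool.Agent.L5helper91.CH
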